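import Mathlib

set_option autoImplicit false

namespace Pool.Agent.Work.MP_541980_co

/-- Short partizan game forms: a game is given by finitely many Left options and finitely many
Right options. -/
inductive Game : Type
  | mk (m n : ℕ) (L : Fin m → Game) (R : Fin n → Game) : Game

namespace Game

/-- `LeftOpt G G'`: the game `G'` is a Left option of `G`. -/
def LeftOpt : Game → Game → Prop
  | mk _ _ L _, G' => ∃ i, L i = G'

/-- `RightOpt G G'`: the game `G'` is a Right option of `G`. -/
def RightOpt : Game → Game → Prop
  | mk _ _ _ R, G' => ∃ j, R j = G'

/-- The game `0 = { | }`. -/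
def zero : Game := mk 0 0 Fin.elim0 Fin.elim0

/-- The game `* = {0 | 0}`. -/
def star : Game := mk 1 1 ![zero] ![zero]

/-- Auxiliary recursion for the disjunctive sum: `fL i` is `G^{L_i} + ·`, `fR j` is `G^{R_j} + ·`. -/
def addAux {m n : ℕ} (fL : Fin m → Game → Game) (fR : Fin n → Game → Game) : Game → Game
  | mk m' n' L' R' =>
      mk (m + m') (n + n')
        (Fin.append (fun i => fL i (mk m' n' L' R')) (fun i => addAux fL fR (L' i)))
        (Fin.append (fun j => fR j (mk m' n' L' R')) (fun j => addAux fL fR (R' j)))

/-- Disjunctive sum: the options of `G + H` are `G' + H` and `G + H'`, for options `G'` of `G` and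
`H'` of `H`. -/
def add : Game → Game → Game
  | mk _ _ L R => addAux (fun i => add (L i)) (fun j => add (R j))

/-- Two forms are identical when every Left (Right) option of either is identical to a Left
(Right) option of the other; order and repetition of options are ignored. -/
def Identical : Game → Game → Prop
  | mk _ _ L R => fun H =>
      match H with
      | mk _ _ L' R' =>
        (∀ i, ∃ i', Identical (L i) (L' i')) ∧ (∀ i', ∃ i, Identical (L i) (L' i')) ∧
        (∀ j, ∃ j', Identical (R j) (R' j')) ∧ (∀ j', ∃ j, Identical (R j) (R' j'))

/-- Each position has no options at all, or at least one Left and at least one Right option. -/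
def Dicotic : Game → Prop
  | mk m n L R => ((m = 0 ∧ n = 0) ∨ (0 < m ∧ 0 < n)) ∧ (∀ i, Dicotic (L i)) ∧ (∀ j, Dicotic (R j))

end Game

/-- The two players. -/
inductive Player
  | left
  | right

/-- The two play conventions. -/
inductive Convention
  | normal
  | misere

/-- `WinsFirst c G p`: player `p` has a winning strategy in `G` moving first, under the play
convention `c` (a player unable to move loses in normal play and wins in misere play). -/
def WinsFirst (c : Convention) : Game → Player → Prop
  | Game.mk m n L R => fun p =>
      match p with
      | Player.left => (m = 0 ∧ c = Convention.misere) ∨ ∃ i, ¬ WinsFirst c (L i) Player.right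
      | Player.right => (n = 0 ∧ c = Convention.misere) ∨ ∃ j, ¬ WinsFirst c (R j) Player.left

/-- The four outcome classes. -/
inductive OutcomeClass
  | L
  | R
  | N
  | P

open Classical in
/-- The outcome class of `G` under the convention `c`: `N` if the player moving first wins
(whoever that is), `L` (`R`) if Left (Right) wins whoever moves first, `P` if the player moving
second wins. -/
noncomputable def outcome (c : Convention) (G : Game) : OutcomeClass :=
  if WinsFirst c G Player.left then
    (if WinsFirst c G Player.right then OutcomeClass.N else OutcomeClass.L)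
  else
    (if WinsFirst c G Player.right then OutcomeClass.R else OutcomeClass.P)

/-- A set of games is closed if it is closed under disjunctive sums and under taking options. -/
structure Closed (A : Set Game) : Prop where
  sum_mem : ∀ G ∈ A, ∀ H ∈ A, Game.add G H ∈ A
  left_mem : ∀ G ∈ A, ∀ G', Game.LeftOpt G G' → G' ∈ A
  right_mem : ∀ G ∈ A, ∀ G', Game.RightOpt G G' → G' ∈ A

/-- A set of games does not distinguish identical forms. -/
def RespectsIdentity (A : Set Game) : Prop :=
  ∀ G H : Game, Game.Identical G H → (G ∈ A ↔ H ∈ A)

/-- `K` is an evil kernel of `A`. -/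
structure IsEvilKernel (A K : Set Game) : Prop where
  subset : K ⊆ A
  mem : ∀ G ∈ K, outcome Convention.normal G = outcome Convention.misere G
  not_mem : ∀ G ∈ A, G ∉ K →
    outcome Convention.normal G = outcome Convention.misere (Game.add G Game.star) ∧
    outcome Convention.normal (Game.add G Game.star) = outcome Convention.misere G

/-- The pair `(A, K)` is evilly normal. -/
structure EvillyNormal (A K : Set Game) : Prop where
  dicotic : ∀ G ∈ A, Game.Dicotic G
  closed : Closed A
  kernel : IsEvilKernel A K
  sum_not_mem : ∀ G ∈ A, ∀ H ∈ A, (Game.add G H ∉ K ↔ (G ∉ K ∧ H ∉ K))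

/-- `G ≡ H` modulo the set of games `U` (misere play). -/
def EquivMod (U : Set Game) (G H : Game) : Prop :=
  ∀ X ∈ U, outcome Convention.misere (Game.add G X) = outcome Convention.misere (Game.add H X)

/-- The set of dicotic games. -/
def dicots : Set Game := {G | Game.Dicotic G}

/-- `G` is dicotic and invertible modulo the dicotic games. -/
def InvertibleModDicots (G : Game) : Prop :=
  G ∈ dicots ∧ ∃ H ∈ dicots, EquivMod dicots (Game.add G H) Game.zero

/-- The game `Q = {0, * | 0}`. -/
def gameQ : Game := Game.mk 2 1 ![Game.zero, Game.star] ![Game.zero]

/-- The game `G = {0, * | Q} = {0, * | {0, * | 0}}`. -/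
def gameG : Game := Game.mk 2 1 ![Game.zero, Game.star] ![gameQ]

end Pool.Agent.Work.MP_541980_co
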