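import Mathlib
import Pool.Agent.Work.MP_541980_co.Defs

set_option autoImplicit false

namespace Pool.Agent.Work.MP_541980_co

/-! ### Basic facts on options -/

theorem leftOpt_iff (m n : ℕ) (L : Fin m → Game) (R : Fin n → Game) (X : Game) :
    Game.LeftOpt (Game.mk m n L R) X ↔ ∃ i, L i = X := Iff.rfl

theorem rightOpt_iff (m n : ℕ) (L : Fin m → Game) (R : Fin n → Game) (X : Game) :
    Game.RightOpt (Game.mk m n L R) X ↔ ∃ i, R i = X := Iff.rfl

theorem add_mk (m n : ℕ) (L : Fin m → Game) (R : Fin n → Game) (m' n' : ℕ)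
    (L' : Fin m' → Game) (R' : Fin n' → Game) :
    Game.add (Game.mk m n L R) (Game.mk m' n' L' R') =
      Game.mk (m + m') (n + n')
        (Fin.append (fun i => Game.add (L i) (Game.mk m' n' L' R'))
          (fun i => Game.add (Game.mk m n L R) (L' i)))
        (Fin.append (fun j => Game.add (R j) (Game.mk m' n' L' R'))
          (fun j => Game.add (Game.mk m n L R) (R' j))) := by
  rw [Game.add, Game.addAux]

theorem exists_append {α : Type} {m n : ℕ} (f : Fin m → α) (g : Fin n → α) (p : α → Prop) :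
    (∃ i, p (Fin.append f g i)) ↔ (∃ i, p (f i)) ∨ (∃ i, p (g i)) := by
  constructor
  · rintro ⟨i, hi⟩
    induction i using Fin.addCases with
    | left i => left; exact ⟨i, by simpa using hi⟩
    | right i => right; exact ⟨i, by simpa using hi⟩
  · rintro (⟨i, hi⟩ | ⟨i, hi⟩)
    · exact ⟨Fin.castAdd n i, by simpa using hi⟩
    · exact ⟨Fin.natAdd m i, by simpa using hi⟩

theorem leftOpt_add (G H X : Game) :
    Game.LeftOpt (Game.add G H) X ↔
      (∃ G', Game.LeftOpt G G' ∧ Game.add G' H = X) ∨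
      (∃ H', Game.LeftOpt H H' ∧ Game.add G H' = X) := by
  cases G with
  | mk m n L R =>
    cases H with
    | mk m' n' L' R' =>
      rw [add_mk, leftOpt_iff, exists_append _ _ (fun Y => Y = X)]
      constructor
      · rintro (⟨i, hi⟩ | ⟨i, hi⟩)
        · exact Or.inl ⟨L i, ⟨i, rfl⟩, hi⟩
        · exact Or.inr ⟨L' i, ⟨i, rfl⟩, hi⟩
      · rintro (⟨G', ⟨i, rfl⟩, hi⟩ | ⟨H', ⟨i, rfl⟩, hi⟩)
        · exact Or.inl ⟨i, hi⟩
        · exact Or.inr ⟨i, hi⟩

theorem rightOpt_add (G H X : Game) :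
    Game.RightOpt (Game.add G H) X ↔
      (∃ G', Game.RightOpt G G' ∧ Game.add G' H = X) ∨
      (∃ H', Game.RightOpt H H' ∧ Game.add G H' = X) := by
  cases G with
  | mk m n L R =>
    cases H with
    | mk m' n' L' R' =>
      rw [add_mk, rightOpt_iff, exists_append _ _ (fun Y => Y = X)]
      constructor
      · rintro (⟨i, hi⟩ | ⟨i, hi⟩)
        · exact Or.inl ⟨R i, ⟨i, rfl⟩, hi⟩
        · exact Or.inr ⟨R' i, ⟨i, rfl⟩, hi⟩
      · rintro (⟨G', ⟨i, rfl⟩, hi⟩ | ⟨H', ⟨i, rfl⟩, hi⟩)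
        · exact Or.inl ⟨i, hi⟩
        · exact Or.inr ⟨i, hi⟩

/-- Induction on games through options. -/
theorem game_induction {p : Game → Prop}
    (h : ∀ G, (∀ G', Game.LeftOpt G G' → p G') → (∀ G', Game.RightOpt G G' → p G') → p G) :
    ∀ G, p G := by
  intro G
  induction G with
  | mk m n L R ihL ihR =>
    apply h
    · rintro G' ⟨i, rfl⟩; exact ihL i
    · rintro G' ⟨i, rfl⟩; exact ihR i

theorem winsFirst_left (c : Convention) (G : Game) :
    WinsFirst c G Player.left ↔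
      ((∀ G', ¬ Game.LeftOpt G G') ∧ c = Convention.misere) ∨
      ∃ G', Game.LeftOpt G G' ∧ ¬ WinsFirst c G' Player.right := by
  cases G with
  | mk m n L R =>
    rw [WinsFirst]
    constructor
    · rintro (⟨h0, hc⟩ | ⟨i, hi⟩)
      · left
        refine ⟨?_, hc⟩
        rintro G' ⟨i, _⟩
        subst h0
        exact i.elim0
      · exact Or.inr ⟨L i, ⟨i, rfl⟩, hi⟩
    · rintro (⟨h0, hc⟩ | ⟨G', ⟨i, rfl⟩, hi⟩)
      · left
        refine ⟨?_, hc⟩
        by_contra hm
        exact h0 (L ⟨0, Nat.pos_of_ne_zero hm⟩) ⟨_, rfl⟩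
      · exact Or.inr ⟨i, hi⟩

theorem winsFirst_right (c : Convention) (G : Game) :
    WinsFirst c G Player.right ↔
      ((∀ G', ¬ Game.RightOpt G G') ∧ c = Convention.misere) ∨
      ∃ G', Game.RightOpt G G' ∧ ¬ WinsFirst c G' Player.left := by
  cases G with
  | mk m n L R =>
    rw [WinsFirst]
    constructor
    · rintro (⟨h0, hc⟩ | ⟨i, hi⟩)
      · left
        refine ⟨?_, hc⟩
        rintro G' ⟨i, _⟩
        subst h0
        exact i.elim0
      · exact Or.inr ⟨R i, ⟨i, rfl⟩, hi⟩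
    · rintro (⟨h0, hc⟩ | ⟨G', ⟨i, rfl⟩, hi⟩)
      · left
        refine ⟨?_, hc⟩
        by_contra hm
        exact h0 (R ⟨0, Nat.pos_of_ne_zero hm⟩) ⟨_, rfl⟩
      · exact Or.inr ⟨i, hi⟩

theorem dicotic_iff (G : Game) :
    Game.Dicotic G ↔ (((∀ X, ¬ Game.LeftOpt G X) ∧ (∀ X, ¬ Game.RightOpt G X)) ∨
        ((∃ X, Game.LeftOpt G X) ∧ (∃ X, Game.RightOpt G X))) ∧
      (∀ X, Game.LeftOpt G X → Game.Dicotic X) ∧ (∀ X, Game.RightOpt G X → Game.Dicotic X) := by
  cases G with
  | mk m n L R =>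
    rw [Game.Dicotic]
    constructor
    · rintro ⟨h, hL, hR⟩
      refine ⟨?_, ?_, ?_⟩
      · rcases h with ⟨h1, h2⟩ | ⟨h1, h2⟩
        · left
          subst h1; subst h2
          exact ⟨fun X ⟨i, _⟩ => i.elim0, fun X ⟨i, _⟩ => i.elim0⟩
        · right
          exact ⟨⟨L ⟨0, h1⟩, ⟨_, rfl⟩⟩, ⟨R ⟨0, h2⟩, ⟨_, rfl⟩⟩⟩
      · rintro X ⟨i, rfl⟩; exact hL i
      · rintro X ⟨i, rfl⟩; exact hR i
    · rintro ⟨h, hL, hR⟩
      refine ⟨?_, fun i => hL _ ⟨i, rfl⟩, fun i => hR _ ⟨i, rfl⟩⟩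
      rcases h with ⟨h1, h2⟩ | ⟨⟨X, i, _⟩, ⟨Y, j, _⟩⟩
      · left
        constructor
        · by_contra hm
          exact h1 (L ⟨0, Nat.pos_of_ne_zero hm⟩) ⟨_, rfl⟩
        · by_contra hm
          exact h2 (R ⟨0, Nat.pos_of_ne_zero hm⟩) ⟨_, rfl⟩
      · right
        exact ⟨Nat.lt_of_le_of_lt (Nat.zero_le _) i.isLt, Nat.lt_of_le_of_lt (Nat.zero_le _) j.isLt⟩

theorem identical_iff (G H : Game) :
    Game.Identical G H ↔
      (∀ X, Game.LeftOpt G X → ∃ Y, Game.LeftOpt H Y ∧ Game.Identical X Y) ∧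
      (∀ Y, Game.LeftOpt H Y → ∃ X, Game.LeftOpt G X ∧ Game.Identical X Y) ∧
      (∀ X, Game.RightOpt G X → ∃ Y, Game.RightOpt H Y ∧ Game.Identical X Y) ∧
      (∀ Y, Game.RightOpt H Y → ∃ X, Game.RightOpt G X ∧ Game.Identical X Y) := by
  cases G with
  | mk m n L R =>
    cases H with
    | mk m' n' L' R' =>
      rw [Game.Identical]
      constructor
      · rintro ⟨h1, h2, h3, h4⟩
        refine ⟨?_, ?_, ?_, ?_⟩
        · rintro X ⟨i, rfl⟩
          obtain ⟨j, hj⟩ := h1 i
          exact ⟨L' j, ⟨j, rfl⟩, hj⟩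
        · rintro X ⟨i, rfl⟩
          obtain ⟨j, hj⟩ := h2 i
          exact ⟨L j, ⟨j, rfl⟩, hj⟩
        · rintro X ⟨i, rfl⟩
          obtain ⟨j, hj⟩ := h3 i
          exact ⟨R' j, ⟨j, rfl⟩, hj⟩
        · rintro X ⟨i, rfl⟩
          obtain ⟨j, hj⟩ := h4 i
          exact ⟨R j, ⟨j, rfl⟩, hj⟩
      · rintro ⟨h1, h2, h3, h4⟩
        refine ⟨?_, ?_, ?_, ?_⟩
        · intro i
          obtain ⟨Y, ⟨j, rfl⟩, hj⟩ := h1 (L i) ⟨i, rfl⟩
          exact ⟨j, hj⟩
        · intro i
          obtain ⟨Y, ⟨j, rfl⟩, hj⟩ := h2 (L' i) ⟨i, rfl⟩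
          exact ⟨j, hj⟩
        · intro i
          obtain ⟨Y, ⟨j, rfl⟩, hj⟩ := h3 (R i) ⟨i, rfl⟩
          exact ⟨j, hj⟩
        · intro i
          obtain ⟨Y, ⟨j, rfl⟩, hj⟩ := h4 (R' i) ⟨i, rfl⟩
          exact ⟨j, hj⟩

/-! ### Options of the small games -/

theorem leftOpt_zero (X : Game) : ¬ Game.LeftOpt Game.zero X := by
  rintro ⟨i, _⟩; exact i.elim0

theorem rightOpt_zero (X : Game) : ¬ Game.RightOpt Game.zero X := by
  rintro ⟨i, _⟩; exact i.elim0

theorem leftOpt_star (X : Game) : Game.LeftOpt Game.star X ↔ X = Game.zero := by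
  constructor
  · rintro ⟨i, rfl⟩
    fin_cases i
    rfl
  · rintro rfl; exact ⟨0, rfl⟩

theorem rightOpt_star (X : Game) : Game.RightOpt Game.star X ↔ X = Game.zero := by
  constructor
  · rintro ⟨i, rfl⟩
    fin_cases i
    rfl
  · rintro rfl; exact ⟨0, rfl⟩

theorem leftOpt_gameQ (X : Game) :
    Game.LeftOpt gameQ X ↔ X = Game.zero ∨ X = Game.star := by
  constructor
  · rintro ⟨i, rfl⟩
    fin_cases i
    · left; rfl
    · right; rfl
  · rintro (rfl | rfl)
    · exact ⟨0, rfl⟩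
    · exact ⟨1, rfl⟩

theorem rightOpt_gameQ (X : Game) : Game.RightOpt gameQ X ↔ X = Game.zero := by
  constructor
  · rintro ⟨i, rfl⟩
    fin_cases i
    rfl
  · rintro rfl; exact ⟨0, rfl⟩

theorem leftOpt_gameG (X : Game) :
    Game.LeftOpt gameG X ↔ X = Game.zero ∨ X = Game.star := by
  constructor
  · rintro ⟨i, rfl⟩
    fin_cases i
    · left; rfl
    · right; rfl
  · rintro (rfl | rfl)
    · exact ⟨0, rfl⟩
    · exact ⟨1, rfl⟩

theorem rightOpt_gameG (X : Game) : Game.RightOpt gameG X ↔ X = gameQ := by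
  constructor
  · rintro ⟨i, rfl⟩
    fin_cases i
    rfl
  · rintro rfl; exact ⟨0, rfl⟩

/-! ### Multisets of the three games -/

/-- Number of copies of `G`, of `Q` and of `*` in a sum. -/
structure V where
  a : ℕ
  n : ℕ
  m : ℕ

/-- Left moves on sums. -/
def LM (v w : V) : Prop :=
  (v.a = w.a + 1 ∧ v.n = w.n ∧ (w.m = v.m ∨ w.m = v.m + 1)) ∨
  (v.a = w.a ∧ v.n = w.n + 1 ∧ (w.m = v.m ∨ w.m = v.m + 1)) ∨
  (v.a = w.a ∧ v.n = w.n ∧ v.m = w.m + 1)

/-- Right moves on sums. -/
def RM (v w : V) : Prop :=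
  (v.a = w.a + 1 ∧ w.n = v.n + 1 ∧ w.m = v.m) ∨
  (v.a = w.a ∧ v.n = w.n + 1 ∧ w.m = v.m) ∨
  (v.a = w.a ∧ v.n = w.n ∧ v.m = w.m + 1)

theorem LM_mk (v : V) (a n m : ℕ) : LM v ⟨a, n, m⟩ ↔
    ((v.a = a + 1 ∧ v.n = n ∧ (m = v.m ∨ m = v.m + 1)) ∨
    (v.a = a ∧ v.n = n + 1 ∧ (m = v.m ∨ m = v.m + 1)) ∨
    (v.a = a ∧ v.n = n ∧ v.m = m + 1)) := Iff.rfl

theorem RM_mk (v : V) (a n m : ℕ) : RM v ⟨a, n, m⟩ ↔
    ((v.a = a + 1 ∧ n = v.n + 1 ∧ m = v.m) ∨
    (v.a = a ∧ v.n = n + 1 ∧ m = v.m) ∨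
    (v.a = a ∧ v.n = n ∧ v.m = m + 1)) := Iff.rfl

/-- `Rep Y v`: the moves of `Y` are those of the sum described by `v`. -/
def Rep : Game → V → Prop
  | Game.mk _ _ L R => fun v =>
      (∀ i, ∃ w, LM v w ∧ Rep (L i) w) ∧ (∀ w, LM v w → ∃ i, Rep (L i) w) ∧
      (∀ j, ∃ w, RM v w ∧ Rep (R j) w) ∧ (∀ w, RM v w → ∃ j, Rep (R j) w)

theorem rep_iff (Y : Game) (v : V) :
    Rep Y v ↔
      (∀ X, Game.LeftOpt Y X → ∃ w, LM v w ∧ Rep X w) ∧
      (∀ w, LM v w → ∃ X, Game.LeftOpt Y X ∧ Rep X w) ∧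
      (∀ X, Game.RightOpt Y X → ∃ w, RM v w ∧ Rep X w) ∧
      (∀ w, RM v w → ∃ X, Game.RightOpt Y X ∧ Rep X w) := by
  cases Y with
  | mk m n L R =>
    rw [Rep]
    constructor
    · rintro ⟨h1, h2, h3, h4⟩
      refine ⟨?_, ?_, ?_, ?_⟩
      · rintro X ⟨i, rfl⟩; exact h1 i
      · intro w hw
        obtain ⟨i, hi⟩ := h2 w hw
        exact ⟨L i, ⟨i, rfl⟩, hi⟩
      · rintro X ⟨i, rfl⟩; exact h3 i
      · intro w hw
        obtain ⟨i, hi⟩ := h4 w hw
        exact ⟨R i, ⟨i, rfl⟩, hi⟩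
    · rintro ⟨h1, h2, h3, h4⟩
      refine ⟨fun i => h1 _ ⟨i, rfl⟩, ?_, fun i => h3 _ ⟨i, rfl⟩, ?_⟩
      · intro w hw
        obtain ⟨X, ⟨i, rfl⟩, hi⟩ := h2 w hw
        exact ⟨i, hi⟩
      · intro w hw
        obtain ⟨X, ⟨i, rfl⟩, hi⟩ := h4 w hw
        exact ⟨i, hi⟩

theorem rep_zero : Rep Game.zero ⟨0, 0, 0⟩ := by
  rw [rep_iff]
  refine ⟨fun X hX => absurd hX (leftOpt_zero X), ?_, fun X hX => absurd hX (rightOpt_zero X), ?_⟩
  · intro w hw; exfalso; simp only [LM] at hw; omega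
  · intro w hw; exfalso; simp only [RM] at hw; omega

theorem V_ext {v w : V} (h1 : v.a = w.a) (h2 : v.n = w.n) (h3 : v.m = w.m) : v = w := by
  cases v; cases w; simp_all

theorem rep_star : Rep Game.star ⟨0, 0, 1⟩ := by
  rw [rep_iff]
  refine ⟨?_, ?_, ?_, ?_⟩
  · intro X hX
    rw [leftOpt_star] at hX; subst hX
    exact ⟨⟨0, 0, 0⟩, by simp [LM], rep_zero⟩
  · intro w hw
    have : w = ⟨0, 0, 0⟩ := by
      simp only [LM] at hw
      apply V_ext <;> simp only <;> omega
    subst this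
    exact ⟨Game.zero, (leftOpt_star _).2 rfl, rep_zero⟩
  · intro X hX
    rw [rightOpt_star] at hX; subst hX
    exact ⟨⟨0, 0, 0⟩, by simp [RM], rep_zero⟩
  · intro w hw
    have : w = ⟨0, 0, 0⟩ := by
      simp only [RM] at hw
      apply V_ext <;> simp only <;> omega
    subst this
    exact ⟨Game.zero, (rightOpt_star _).2 rfl, rep_zero⟩

theorem rep_gameQ : Rep gameQ ⟨0, 1, 0⟩ := by
  rw [rep_iff]
  refine ⟨?_, ?_, ?_, ?_⟩
  · intro X hX
    rw [leftOpt_gameQ] at hX
    rcases hX with rfl | rfl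
    · exact ⟨⟨0, 0, 0⟩, by simp [LM], rep_zero⟩
    · exact ⟨⟨0, 0, 1⟩, by simp [LM], rep_star⟩
  · intro w hw
    have : w = ⟨0, 0, 0⟩ ∨ w = ⟨0, 0, 1⟩ := by
      simp only [LM] at hw
      have h : w.m = 0 ∨ w.m = 1 := by omega
      rcases h with h | h
      · left; apply V_ext <;> simp only <;> omega
      · right; apply V_ext <;> simp only <;> omega
    rcases this with rfl | rfl
    · exact ⟨Game.zero, (leftOpt_gameQ _).2 (Or.inl rfl), rep_zero⟩
    · exact ⟨Game.star, (leftOpt_gameQ _).2 (Or.inr rfl), rep_star⟩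
  · intro X hX
    rw [rightOpt_gameQ] at hX; subst hX
    exact ⟨⟨0, 0, 0⟩, by simp [RM], rep_zero⟩
  · intro w hw
    have : w = ⟨0, 0, 0⟩ := by
      simp only [RM] at hw
      apply V_ext <;> simp only <;> omega
    subst this
    exact ⟨Game.zero, (rightOpt_gameQ _).2 rfl, rep_zero⟩

theorem rep_gameG : Rep gameG ⟨1, 0, 0⟩ := by
  rw [rep_iff]
  refine ⟨?_, ?_, ?_, ?_⟩
  · intro X hX
    rw [leftOpt_gameG] at hX
    rcases hX with rfl | rfl
    · exact ⟨⟨0, 0, 0⟩, by simp [LM], rep_zero⟩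
    · exact ⟨⟨0, 0, 1⟩, by simp [LM], rep_star⟩
  · intro w hw
    have : w = ⟨0, 0, 0⟩ ∨ w = ⟨0, 0, 1⟩ := by
      simp only [LM] at hw
      have h : w.m = 0 ∨ w.m = 1 := by omega
      rcases h with h | h
      · left; apply V_ext <;> simp only <;> omega
      · right; apply V_ext <;> simp only <;> omega
    rcases this with rfl | rfl
    · exact ⟨Game.zero, (leftOpt_gameG _).2 (Or.inl rfl), rep_zero⟩
    · exact ⟨Game.star, (leftOpt_gameG _).2 (Or.inr rfl), rep_star⟩
  · intro X hX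
    rw [rightOpt_gameG] at hX; subst hX
    exact ⟨⟨0, 1, 0⟩, by simp [RM], rep_gameQ⟩
  · intro w hw
    have : w = ⟨0, 1, 0⟩ := by
      simp only [RM] at hw
      apply V_ext <;> simp only <;> omega
    subst this
    exact ⟨gameQ, (rightOpt_gameG _).2 rfl, rep_gameQ⟩

/-- Componentwise sum of vectors. -/
def V.plus (v w : V) : V := ⟨v.a + w.a, v.n + w.n, v.m + w.m⟩

theorem LM_plus_left {v v' : V} (w : V) (h : LM v v') : LM (v.plus w) (v'.plus w) := by
  simp only [LM, V.plus] at *; omega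

theorem LM_plus_right {v v' : V} (w : V) (h : LM v v') : LM (w.plus v) (w.plus v') := by
  simp only [LM, V.plus] at *; omega

theorem RM_plus_left {v v' : V} (w : V) (h : RM v v') : RM (v.plus w) (v'.plus w) := by
  simp only [RM, V.plus] at *; omega

theorem RM_plus_right {v v' : V} (w : V) (h : RM v v') : RM (w.plus v) (w.plus v') := by
  simp only [RM, V.plus] at *; omega

theorem LM_plus_split {v w u : V} (h : LM (v.plus w) u) :
    (∃ v', LM v v' ∧ u = v'.plus w) ∨ (∃ w', LM w w' ∧ u = v.plus w') := by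
  simp only [LM, V.plus] at h
  rcases h with ⟨h1, h2, h3⟩ | ⟨h1, h2, h3⟩ | ⟨h1, h2, h3⟩
  · by_cases hv : 1 ≤ v.a
    · left
      refine ⟨⟨v.a - 1, v.n, u.m - w.m⟩, ?_, ?_⟩
      · rw [LM_mk]; omega
      · apply V_ext <;> simp only [V.plus] <;> omega
    · right
      refine ⟨⟨w.a - 1, w.n, u.m - v.m⟩, ?_, ?_⟩
      · rw [LM_mk]; omega
      · apply V_ext <;> simp only [V.plus] <;> omega
  · by_cases hv : 1 ≤ v.n
    · left
      refine ⟨⟨v.a, v.n - 1, u.m - w.m⟩, ?_, ?_⟩
      · rw [LM_mk]; omega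
      · apply V_ext <;> simp only [V.plus] <;> omega
    · right
      refine ⟨⟨w.a, w.n - 1, u.m - v.m⟩, ?_, ?_⟩
      · rw [LM_mk]; omega
      · apply V_ext <;> simp only [V.plus] <;> omega
  · by_cases hv : 1 ≤ v.m
    · left
      refine ⟨⟨v.a, v.n, v.m - 1⟩, ?_, ?_⟩
      · rw [LM_mk]; omega
      · apply V_ext <;> simp only [V.plus] <;> omega
    · right
      refine ⟨⟨w.a, w.n, w.m - 1⟩, ?_, ?_⟩
      · rw [LM_mk]; omega
      · apply V_ext <;> simp only [V.plus] <;> omega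

theorem RM_plus_split {v w u : V} (h : RM (v.plus w) u) :
    (∃ v', RM v v' ∧ u = v'.plus w) ∨ (∃ w', RM w w' ∧ u = v.plus w') := by
  simp only [RM, V.plus] at h
  rcases h with ⟨h1, h2, h3⟩ | ⟨h1, h2, h3⟩ | ⟨h1, h2, h3⟩
  · by_cases hv : 1 ≤ v.a
    · left
      refine ⟨⟨v.a - 1, v.n + 1, v.m⟩, ?_, ?_⟩
      · rw [RM_mk]; omega
      · apply V_ext <;> simp only [V.plus] <;> omega
    · right
      refine ⟨⟨w.a - 1, w.n + 1, w.m⟩, ?_, ?_⟩
      · rw [RM_mk]; omega
      · apply V_ext <;> simp only [V.plus] <;> omega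
  · by_cases hv : 1 ≤ v.n
    · left
      refine ⟨⟨v.a, v.n - 1, v.m⟩, ?_, ?_⟩
      · rw [RM_mk]; omega
      · apply V_ext <;> simp only [V.plus] <;> omega
    · right
      refine ⟨⟨w.a, w.n - 1, w.m⟩, ?_, ?_⟩
      · rw [RM_mk]; omega
      · apply V_ext <;> simp only [V.plus] <;> omega
  · by_cases hv : 1 ≤ v.m
    · left
      refine ⟨⟨v.a, v.n, v.m - 1⟩, ?_, ?_⟩
      · rw [RM_mk]; omega
      · apply V_ext <;> simp only [V.plus] <;> omega
    · right
      refine ⟨⟨w.a, w.n, w.m - 1⟩, ?_, ?_⟩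
      · rw [RM_mk]; omega
      · apply V_ext <;> simp only [V.plus] <;> omega

theorem rep_add : ∀ Y Z : Game, ∀ v w : V, Rep Y v → Rep Z w → Rep (Game.add Y Z) (v.plus w) := by
  intro Y
  induction Y using game_induction with
  | h Y ihYL ihYR =>
    intro Z
    induction Z using game_induction with
    | h Z ihZL ihZR =>
      intro v w hv hw
      have hv' := (rep_iff Y v).1 hv
      have hw' := (rep_iff Z w).1 hw
      rw [rep_iff]
      refine ⟨?_, ?_, ?_, ?_⟩
      · intro X hX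
        rw [leftOpt_add] at hX
        rcases hX with ⟨Y', hY', rfl⟩ | ⟨Z', hZ', rfl⟩
        · obtain ⟨v', h1, h2⟩ := hv'.1 Y' hY'
          exact ⟨v'.plus w, LM_plus_left w h1, ihYL Y' hY' Z v' w h2 hw⟩
        · obtain ⟨w', h1, h2⟩ := hw'.1 Z' hZ'
          exact ⟨v.plus w', LM_plus_right v h1, ihZL Z' hZ' v w' hv h2⟩
      · intro u hu
        rcases LM_plus_split hu with ⟨v', h1, rfl⟩ | ⟨w', h1, rfl⟩
        · obtain ⟨Y', hY', h2⟩ := hv'.2.1 v' h1
          exact ⟨Game.add Y' Z, (leftOpt_add _ _ _).2 (Or.inl ⟨Y', hY', rfl⟩),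
            ihYL Y' hY' Z v' w h2 hw⟩
        · obtain ⟨Z', hZ', h2⟩ := hw'.2.1 w' h1
          exact ⟨Game.add Y Z', (leftOpt_add _ _ _).2 (Or.inr ⟨Z', hZ', rfl⟩),
            ihZL Z' hZ' v w' hv h2⟩
      · intro X hX
        rw [rightOpt_add] at hX
        rcases hX with ⟨Y', hY', rfl⟩ | ⟨Z', hZ', rfl⟩
        · obtain ⟨v', h1, h2⟩ := hv'.2.2.1 Y' hY'
          exact ⟨v'.plus w, RM_plus_left w h1, ihYR Y' hY' Z v' w h2 hw⟩
        · obtain ⟨w', h1, h2⟩ := hw'.2.2.1 Z' hZ'
          exact ⟨v.plus w', RM_plus_right v h1, ihZR Z' hZ' v w' hv h2⟩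
      · intro u hu
        rcases RM_plus_split hu with ⟨v', h1, rfl⟩ | ⟨w', h1, rfl⟩
        · obtain ⟨Y', hY', h2⟩ := hv'.2.2.2 v' h1
          exact ⟨Game.add Y' Z, (rightOpt_add _ _ _).2 (Or.inl ⟨Y', hY', rfl⟩),
            ihYR Y' hY' Z v' w h2 hw⟩
        · obtain ⟨Z', hZ', h2⟩ := hw'.2.2.2 w' h1
          exact ⟨Game.add Y Z', (rightOpt_add _ _ _).2 (Or.inr ⟨Z', hZ', rfl⟩),
            ihZR Z' hZ' v w' hv h2⟩

theorem identical_symm : ∀ Y Z : Game, Game.Identical Y Z → Game.Identical Z Y := by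
  intro Y
  induction Y using game_induction with
  | h Y ihL ihR =>
    intro Z h
    rw [identical_iff] at h ⊢
    obtain ⟨h1, h2, h3, h4⟩ := h
    refine ⟨?_, ?_, ?_, ?_⟩
    · intro X hX
      obtain ⟨W, hW, hWX⟩ := h2 X hX
      exact ⟨W, hW, ihL W hW X hWX⟩
    · intro X hX
      obtain ⟨W, hW, hWX⟩ := h1 X hX
      exact ⟨W, hW, ihL X hX W hWX⟩
    · intro X hX
      obtain ⟨W, hW, hWX⟩ := h4 X hX
      exact ⟨W, hW, ihR W hW X hWX⟩
    · intro X hX
      obtain ⟨W, hW, hWX⟩ := h3 X hX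
      exact ⟨W, hW, ihR X hX W hWX⟩

theorem rep_of_identical : ∀ Y Z : Game, ∀ v : V, Game.Identical Y Z → Rep Y v → Rep Z v := by
  intro Y
  induction Y using game_induction with
  | h Y ihL ihR =>
    intro Z v h hv
    rw [identical_iff] at h
    rw [rep_iff] at hv ⊢
    obtain ⟨h1, h2, h3, h4⟩ := h
    obtain ⟨k1, k2, k3, k4⟩ := hv
    refine ⟨?_, ?_, ?_, ?_⟩
    · intro X hX
      obtain ⟨W, hW, hWX⟩ := h2 X hX
      obtain ⟨w, hw, hWw⟩ := k1 W hW
      exact ⟨w, hw, ihL W hW X w hWX hWw⟩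
    · intro w hw
      obtain ⟨W, hW, hWw⟩ := k2 w hw
      obtain ⟨X, hX, hWX⟩ := h1 W hW
      exact ⟨X, hX, ihL W hW X w hWX hWw⟩
    · intro X hX
      obtain ⟨W, hW, hWX⟩ := h4 X hX
      obtain ⟨w, hw, hWw⟩ := k3 W hW
      exact ⟨w, hw, ihR W hW X w hWX hWw⟩
    · intro w hw
      obtain ⟨W, hW, hWw⟩ := k4 w hw
      obtain ⟨X, hX, hWX⟩ := h3 W hW
      exact ⟨X, hX, ihR W hW X w hWX hWw⟩

/-- The number of copies of `G` is determined by the form. -/
theorem rep_unique : ∀ Y : Game, ∀ v w : V, Rep Y v → Rep Y w →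
    v.a + v.n + v.m = w.a + w.n + w.m ∧ 2 * v.a + v.n + v.m = 2 * w.a + w.n + w.m := by
  intro Y
  induction Y using game_induction with
  | h Y ihL ihR =>
    have key1 : ∀ v w : V, Rep Y v → Rep Y w → w.a + w.n + w.m ≤ v.a + v.n + v.m := by
      intro v w hv hw
      have hv' := (rep_iff Y v).1 hv
      have hw' := (rep_iff Y w).1 hw
      by_cases h0 : v.a + v.n + v.m = 0
      · have hno : ∀ X, ¬ Game.LeftOpt Y X := by
          intro X hX
          obtain ⟨u, hu, _⟩ := hv'.1 X hX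
          simp only [LM] at hu; omega
        by_contra hne
        have : ∃ u, LM w u := by
          by_cases ha : 1 ≤ w.a
          · exact ⟨⟨w.a - 1, w.n, w.m⟩, by rw [LM_mk]; omega⟩
          · by_cases hn : 1 ≤ w.n
            · exact ⟨⟨w.a, w.n - 1, w.m⟩, by rw [LM_mk]; omega⟩
            · exact ⟨⟨w.a, w.n, w.m - 1⟩, by rw [LM_mk]; omega⟩
        obtain ⟨u, hu⟩ := this
        obtain ⟨X, hX, _⟩ := hw'.2.1 u hu
        exact hno X hX
      · have : ∃ u, LM v u ∧ u.a + u.n + u.m + 1 = v.a + v.n + v.m := by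
          by_cases ha : 1 ≤ v.a
          · exact ⟨⟨v.a - 1, v.n, v.m⟩, by rw [LM_mk]; omega, by simp only; omega⟩
          · by_cases hn : 1 ≤ v.n
            · exact ⟨⟨v.a, v.n - 1, v.m⟩, by rw [LM_mk]; omega, by simp only; omega⟩
            · exact ⟨⟨v.a, v.n, v.m - 1⟩, by rw [LM_mk]; omega, by simp only; omega⟩
        obtain ⟨u, hu, hus⟩ := this
        obtain ⟨X, hX, hXu⟩ := hv'.2.1 u hu
        obtain ⟨t, ht, hXt⟩ := hw'.1 X hX
        have := (ihL X hX u t hXu hXt).1
        simp only [LM] at ht; omega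
    have key2 : ∀ v w : V, Rep Y v → Rep Y w →
        2 * w.a + w.n + w.m ≤ 2 * v.a + v.n + v.m := by
      intro v w hv hw
      have hv' := (rep_iff Y v).1 hv
      have hw' := (rep_iff Y w).1 hw
      by_cases h0 : 2 * v.a + v.n + v.m = 0
      · have := key1 v w hv hw
        omega
      · have : ∃ u, RM v u ∧ 2 * u.a + u.n + u.m + 1 = 2 * v.a + v.n + v.m := by
          by_cases ha : 1 ≤ v.a
          · exact ⟨⟨v.a - 1, v.n + 1, v.m⟩, by rw [RM_mk]; omega, by simp only; omega⟩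
          · by_cases hn : 1 ≤ v.n
            · exact ⟨⟨v.a, v.n - 1, v.m⟩, by rw [RM_mk]; omega, by simp only; omega⟩
            · exact ⟨⟨v.a, v.n, v.m - 1⟩, by rw [RM_mk]; omega, by simp only; omega⟩
        obtain ⟨u, hu, hus⟩ := this
        obtain ⟨X, hX, hXu⟩ := hv'.2.2.2 u hu
        obtain ⟨t, ht, hXt⟩ := hw'.2.2.1 X hX
        have := (ihR X hX u t hXu hXt).2
        simp only [RM] at ht; omega
    intro v w hv hw
    have h1 := key1 v w hv hw
    have h2 := key1 w v hw hv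
    have h3 := key2 v w hv hw
    have h4 := key2 w v hw hv
    omega

theorem dicotic_of_rep : ∀ Y : Game, ∀ v : V, Rep Y v → Game.Dicotic Y := by
  intro Y
  induction Y using game_induction with
  | h Y ihL ihR =>
    intro v hv
    have hv' := (rep_iff Y v).1 hv
    rw [dicotic_iff]
    refine ⟨?_, ?_, ?_⟩
    · by_cases h0 : v.a + v.n + v.m = 0
      · left
        constructor
        · intro X hX
          obtain ⟨u, hu, _⟩ := hv'.1 X hX
          simp only [LM] at hu; omega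
        · intro X hX
          obtain ⟨u, hu, _⟩ := hv'.2.2.1 X hX
          simp only [RM] at hu; omega
      · right
        constructor
        · have : ∃ u, LM v u := by
            by_cases ha : 1 ≤ v.a
            · exact ⟨⟨v.a - 1, v.n, v.m⟩, by rw [LM_mk]; omega⟩
            · by_cases hn : 1 ≤ v.n
              · exact ⟨⟨v.a, v.n - 1, v.m⟩, by rw [LM_mk]; omega⟩
              · exact ⟨⟨v.a, v.n, v.m - 1⟩, by rw [LM_mk]; omega⟩
          obtain ⟨u, hu⟩ := this
          obtain ⟨X, hX, _⟩ := hv'.2.1 u hu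
          exact ⟨X, hX⟩
        · have : ∃ u, RM v u := by
            by_cases ha : 1 ≤ v.a
            · exact ⟨⟨v.a - 1, v.n + 1, v.m⟩, by rw [RM_mk]; omega⟩
            · by_cases hn : 1 ≤ v.n
              · exact ⟨⟨v.a, v.n - 1, v.m⟩, by rw [RM_mk]; omega⟩
              · exact ⟨⟨v.a, v.n, v.m - 1⟩, by rw [RM_mk]; omega⟩
          obtain ⟨u, hu⟩ := this
          obtain ⟨X, hX, _⟩ := hv'.2.2.2 u hu
          exact ⟨X, hX⟩
    · intro X hX
      obtain ⟨u, _, hu⟩ := hv'.1 X hX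
      exact ihL X hX u hu
    · intro X hX
      obtain ⟨u, _, hu⟩ := hv'.2.2.1 X hX
      exact ihR X hX u hu

/-! ### Outcomes of the sums -/

theorem normal_wins : ∀ Y : Game, ∀ v : V, Rep Y v →
    (WinsFirst Convention.normal Y Player.left ↔
      ¬ (2 * v.a + v.n = 0 ∧ (v.n + v.m) % 2 = 0)) ∧
    (WinsFirst Convention.normal Y Player.right ↔
      ((v.n + v.m) % 2 = 1 ∧ 2 * v.a + v.n ≤ 1)) := by
  intro Y
  induction Y using game_induction with
  | h Y ihL ihR =>
    intro v hv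
    have hv' := (rep_iff Y v).1 hv
    constructor
    · rw [winsFirst_left]
      constructor
      · rintro (⟨_, hc⟩ | ⟨X, hX, hw⟩)
        · cases hc
        · obtain ⟨u, hu, hXu⟩ := hv'.1 X hX
          rw [(ihL X hX u hXu).2] at hw
          simp only [LM] at hu
          omega
      · intro h
        right
        have : ∃ u, LM v u ∧ ¬ ((u.n + u.m) % 2 = 1 ∧ 2 * u.a + u.n ≤ 1) := by
          by_cases ha : 1 ≤ v.a
          · by_cases he : (v.n + v.m) % 2 = 0
            · exact ⟨⟨v.a - 1, v.n, v.m⟩, by rw [LM_mk]; omega, by simp only; omega⟩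
            · exact ⟨⟨v.a - 1, v.n, v.m + 1⟩, by rw [LM_mk]; omega, by simp only; omega⟩
          · by_cases hn : 1 ≤ v.n
            · by_cases he : (v.n + v.m) % 2 = 0
              · exact ⟨⟨v.a, v.n - 1, v.m + 1⟩, by rw [LM_mk]; omega, by simp only; omega⟩
              · exact ⟨⟨v.a, v.n - 1, v.m⟩, by rw [LM_mk]; omega, by simp only; omega⟩
            · exact ⟨⟨v.a, v.n, v.m - 1⟩, by rw [LM_mk]; omega, by simp only; omega⟩
        obtain ⟨u, hu, hne⟩ := this
        obtain ⟨X, hX, hXu⟩ := hv'.2.1 u hu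
        refine ⟨X, hX, ?_⟩
        rw [(ihL X hX u hXu).2]
        exact hne
    · rw [winsFirst_right]
      constructor
      · rintro (⟨_, hc⟩ | ⟨X, hX, hw⟩)
        · cases hc
        · obtain ⟨u, hu, hXu⟩ := hv'.2.2.1 X hX
          rw [(ihR X hX u hXu).1] at hw
          simp only [RM] at hu
          omega
      · intro h
        right
        have : ∃ u, RM v u ∧ (2 * u.a + u.n = 0 ∧ (u.n + u.m) % 2 = 0) := by
          by_cases hn : 1 ≤ v.n
          · exact ⟨⟨v.a, v.n - 1, v.m⟩, by rw [RM_mk]; omega, by simp only; omega⟩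
          · exact ⟨⟨v.a, v.n, v.m - 1⟩, by rw [RM_mk]; omega, by simp only; omega⟩
        obtain ⟨u, hu, hne⟩ := this
        obtain ⟨X, hX, hXu⟩ := hv'.2.2.2 u hu
        refine ⟨X, hX, ?_⟩
        rw [(ihR X hX u hXu).1]
        exact not_not_intro hne

theorem misere_wins : ∀ Y : Game, ∀ v : V, Rep Y v →
    (WinsFirst Convention.misere Y Player.left ↔ (1 ≤ v.a ∨ ¬ (v.n = 0 ∧ v.m % 2 = 1))) ∧
    (WinsFirst Convention.misere Y Player.right ↔
      (v.a = 0 ∧ (v.n + v.m) % 2 = 0 ∧ v.n ≤ 1)) := by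
  intro Y
  induction Y using game_induction with
  | h Y ihL ihR =>
    intro v hv
    have hv' := (rep_iff Y v).1 hv
    constructor
    · rw [winsFirst_left]
      constructor
      · rintro (⟨h0, _⟩ | ⟨X, hX, hw⟩)
        · by_contra hcon
          have : ∃ u, LM v u := ⟨⟨v.a, v.n, v.m - 1⟩, by rw [LM_mk]; omega⟩
          obtain ⟨u, hu⟩ := this
          obtain ⟨X, hX, _⟩ := hv'.2.1 u hu
          exact h0 X hX
        · obtain ⟨u, hu, hXu⟩ := hv'.1 X hX
          rw [(ihL X hX u hXu).2] at hw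
          simp only [LM] at hu
          omega
      · intro h
        by_cases h00 : v.a + v.n + v.m = 0
        · left
          refine ⟨?_, rfl⟩
          intro X hX
          obtain ⟨u, hu, _⟩ := hv'.1 X hX
          simp only [LM] at hu; omega
        · right
          have : ∃ u, LM v u ∧ ¬ (u.a = 0 ∧ (u.n + u.m) % 2 = 0 ∧ u.n ≤ 1) := by
            by_cases ha : 1 ≤ v.a
            · by_cases he : (v.n + v.m) % 2 = 0
              · exact ⟨⟨v.a - 1, v.n, v.m + 1⟩, by rw [LM_mk]; omega, by simp only; omega⟩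
              · exact ⟨⟨v.a - 1, v.n, v.m⟩, by rw [LM_mk]; omega, by simp only; omega⟩
            · by_cases hn : 1 ≤ v.n
              · by_cases he : (v.n + v.m) % 2 = 0
                · exact ⟨⟨v.a, v.n - 1, v.m⟩, by rw [LM_mk]; omega, by simp only; omega⟩
                · exact ⟨⟨v.a, v.n - 1, v.m + 1⟩, by rw [LM_mk]; omega, by simp only; omega⟩
              · exact ⟨⟨v.a, v.n, v.m - 1⟩, by rw [LM_mk]; omega, by simp only; omega⟩
          obtain ⟨u, hu, hne⟩ := this
          obtain ⟨X, hX, hXu⟩ := hv'.2.1 u hu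
          refine ⟨X, hX, ?_⟩
          rw [(ihL X hX u hXu).2]
          exact hne
    · rw [winsFirst_right]
      constructor
      · rintro (⟨h0, _⟩ | ⟨X, hX, hw⟩)
        · by_contra hcon
          have : ∃ u, RM v u := by
            by_cases ha : 1 ≤ v.a
            · exact ⟨⟨v.a - 1, v.n + 1, v.m⟩, by rw [RM_mk]; omega⟩
            · by_cases hn : 1 ≤ v.n
              · exact ⟨⟨v.a, v.n - 1, v.m⟩, by rw [RM_mk]; omega⟩
              · exact ⟨⟨v.a, v.n, v.m - 1⟩, by rw [RM_mk]; omega⟩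
          obtain ⟨u, hu⟩ := this
          obtain ⟨X, hX, _⟩ := hv'.2.2.2 u hu
          exact h0 X hX
        · obtain ⟨u, hu, hXu⟩ := hv'.2.2.1 X hX
          rw [(ihR X hX u hXu).1] at hw
          simp only [RM] at hu
          omega
      · intro h
        by_cases h00 : v.a + v.n + v.m = 0
        · left
          refine ⟨?_, rfl⟩
          intro X hX
          obtain ⟨u, hu, _⟩ := hv'.2.2.1 X hX
          simp only [RM] at hu; omega
        · right
          have : ∃ u, RM v u ∧ ¬ (1 ≤ u.a ∨ ¬ (u.n = 0 ∧ u.m % 2 = 1)) := by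
            by_cases hn : 1 ≤ v.n
            · exact ⟨⟨v.a, v.n - 1, v.m⟩, by rw [RM_mk]; omega, by simp only; omega⟩
            · exact ⟨⟨v.a, v.n, v.m - 1⟩, by rw [RM_mk]; omega, by simp only; omega⟩
          obtain ⟨u, hu, hne⟩ := this
          obtain ⟨X, hX, hXu⟩ := hv'.2.2.2 u hu
          refine ⟨X, hX, ?_⟩
          rw [(ihR X hX u hXu).1]
          exact hne

theorem outcome_eq {c c' : Convention} {Y Z : Game}
    (h1 : WinsFirst c Y Player.left ↔ WinsFirst c' Z Player.left)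
    (h2 : WinsFirst c Y Player.right ↔ WinsFirst c' Z Player.right) :
    outcome c Y = outcome c' Z := by
  unfold outcome
  by_cases a : WinsFirst c Y Player.left
  · have a' := h1.1 a
    by_cases b : WinsFirst c Y Player.right
    · rw [if_pos a, if_pos b, if_pos a', if_pos (h2.1 b)]
    · rw [if_pos a, if_neg b, if_pos a', if_neg (fun h => b (h2.2 h))]
  · have a' : ¬ WinsFirst c' Z Player.left := fun h => a (h1.2 h)
    by_cases b : WinsFirst c Y Player.right
    · rw [if_neg a, if_pos b, if_neg a', if_pos (h2.1 b)]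
    · rw [if_neg a, if_neg b, if_neg a', if_neg (fun h => b (h2.2 h))]

/-! ### The pair -/

/-- All forms identical to sums of copies of `G`, `Q` and `*`. -/
def setA : Set Game := {Y | ∃ v : V, Rep Y v}

/-- Those with at least one copy of `G`. -/
def setK : Set Game := {Y | ∃ v : V, Rep Y v ∧ 1 ≤ v.a}

theorem evillyNormal_AK : EvillyNormal setA setK := by
  refine ⟨?_, ⟨?_, ?_, ?_⟩, ⟨?_, ?_, ?_⟩, ?_⟩
  · rintro Y ⟨v, hv⟩
    exact dicotic_of_rep Y v hv
  · rintro Y ⟨v, hv⟩ Z ⟨w, hw⟩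
    exact ⟨v.plus w, rep_add Y Z v w hv hw⟩
  · rintro Y ⟨v, hv⟩ X hX
    obtain ⟨u, _, hu⟩ := ((rep_iff Y v).1 hv).1 X hX
    exact ⟨u, hu⟩
  · rintro Y ⟨v, hv⟩ X hX
    obtain ⟨u, _, hu⟩ := ((rep_iff Y v).1 hv).2.2.1 X hX
    exact ⟨u, hu⟩
  · rintro Y ⟨v, hv, _⟩
    exact ⟨v, hv⟩
  · rintro Y ⟨v, hv, ha⟩
    apply outcome_eq
    · rw [(normal_wins Y v hv).1, (misere_wins Y v hv).1]; omega
    · rw [(normal_wins Y v hv).2, (misere_wins Y v hv).2]; omega
  · rintro Y ⟨v, hv⟩ hK
    have ha : v.a = 0 := by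
      by_contra hne
      exact hK ⟨v, hv, by omega⟩
    have hs := rep_add Y Game.star v _ hv rep_star
    constructor
    · apply outcome_eq
      · rw [(normal_wins Y v hv).1, (misere_wins _ _ hs).1]; simp only [V.plus]; omega
      · rw [(normal_wins Y v hv).2, (misere_wins _ _ hs).2]; simp only [V.plus]; omega
    · apply outcome_eq
      · rw [(normal_wins _ _ hs).1, (misere_wins Y v hv).1]; simp only [V.plus]; omega
      · rw [(normal_wins _ _ hs).2, (misere_wins Y v hv).2]; simp only [V.plus]; omega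
  · rintro Y ⟨v, hv⟩ Z ⟨w, hw⟩
    have hs := rep_add Y Z v w hv hw
    constructor
    · intro h
      constructor
      · rintro ⟨v', hv', ha⟩
        exact h ⟨v'.plus w, rep_add Y Z v' w hv' hw, by simp only [V.plus]; omega⟩
      · rintro ⟨w', hw', ha⟩
        exact h ⟨v.plus w', rep_add Y Z v w' hv hw', by simp only [V.plus]; omega⟩
    · rintro ⟨h1, h2⟩ ⟨u, hu, ha⟩
      have hva : v.a = 0 := by
        by_contra hne
        exact h1 ⟨v, hv, by omega⟩
      have hwa : w.a = 0 := by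
        by_contra hne
        exact h2 ⟨w, hw, by omega⟩
      have := rep_unique _ _ _ hs hu
      simp only [V.plus] at this
      omega

theorem respects_A : RespectsIdentity setA := by
  intro G H h
  constructor
  · rintro ⟨v, hv⟩
    exact ⟨v, rep_of_identical G H v h hv⟩
  · rintro ⟨v, hv⟩
    exact ⟨v, rep_of_identical H G v (identical_symm G H h) hv⟩

theorem respects_K : RespectsIdentity setK := by
  intro G H h
  constructor
  · rintro ⟨v, hv, ha⟩
    exact ⟨v, rep_of_identical G H v h hv, ha⟩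
  · rintro ⟨v, hv, ha⟩
    exact ⟨v, rep_of_identical H G v (identical_symm G H h) hv, ha⟩

/-! ### Invertibility of `G` modulo the dicotic games -/

/-- The negative of `Q`. -/
def negQ : Game := Game.mk 1 2 ![Game.zero] ![Game.zero, Game.star]

/-- The negative of `G`. -/
def negG : Game := Game.mk 1 2 ![negQ] ![Game.zero, Game.star]

theorem leftOpt_negQ (X : Game) : Game.LeftOpt negQ X ↔ X = Game.zero := by
  constructor
  · rintro ⟨i, rfl⟩
    fin_cases i
    rfl
  · rintro rfl; exact ⟨0, rfl⟩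

theorem rightOpt_negQ (X : Game) :
    Game.RightOpt negQ X ↔ X = Game.zero ∨ X = Game.star := by
  constructor
  · rintro ⟨i, rfl⟩
    fin_cases i
    · left; rfl
    · right; rfl
  · rintro (rfl | rfl)
    · exact ⟨0, rfl⟩
    · exact ⟨1, rfl⟩

theorem leftOpt_negG (X : Game) : Game.LeftOpt negG X ↔ X = negQ := by
  constructor
  · rintro ⟨i, rfl⟩
    fin_cases i
    rfl
  · rintro rfl; exact ⟨0, rfl⟩

theorem rightOpt_negG (X : Game) :
    Game.RightOpt negG X ↔ X = Game.zero ∨ X = Game.star := by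
  constructor
  · rintro ⟨i, rfl⟩
    fin_cases i
    · left; rfl
    · right; rfl
  · rintro (rfl | rfl)
    · exact ⟨0, rfl⟩
    · exact ⟨1, rfl⟩

theorem dicotic_zero : Game.Dicotic Game.zero := dicotic_of_rep _ _ rep_zero

theorem dicotic_star : Game.Dicotic Game.star := dicotic_of_rep _ _ rep_star

theorem dicotic_negQ : Game.Dicotic negQ := by
  rw [dicotic_iff]
  refine ⟨Or.inr ⟨⟨_, (leftOpt_negQ _).2 rfl⟩, ⟨_, (rightOpt_negQ _).2 (Or.inl rfl)⟩⟩, ?_, ?_⟩
  · intro X hX
    rw [leftOpt_negQ] at hX; subst hX; exact dicotic_zero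
  · intro X hX
    rw [rightOpt_negQ] at hX
    rcases hX with rfl | rfl
    · exact dicotic_zero
    · exact dicotic_star

theorem dicotic_negG : Game.Dicotic negG := by
  rw [dicotic_iff]
  refine ⟨Or.inr ⟨⟨_, (leftOpt_negG _).2 rfl⟩, ⟨_, (rightOpt_negG _).2 (Or.inl rfl)⟩⟩, ?_, ?_⟩
  · intro X hX
    rw [leftOpt_negG] at hX; subst hX; exact dicotic_negQ
  · intro X hX
    rw [rightOpt_negG] at hX
    rcases hX with rfl | rfl
    · exact dicotic_zero
    · exact dicotic_star

/-- Adding `0` on the left changes nothing. -/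
theorem zero_add_wins (c : Convention) : ∀ X : Game,
    (WinsFirst c (Game.add Game.zero X) Player.left ↔ WinsFirst c X Player.left) ∧
    (WinsFirst c (Game.add Game.zero X) Player.right ↔ WinsFirst c X Player.right) := by
  intro X
  induction X using game_induction with
  | h X ihL ihR =>
    have hL : ∀ W, Game.LeftOpt (Game.add Game.zero X) W ↔
        ∃ X', Game.LeftOpt X X' ∧ Game.add Game.zero X' = W := by
      intro W
      rw [leftOpt_add]
      constructor
      · rintro (⟨Z, hZ, _⟩ | h)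
        · exact absurd hZ (leftOpt_zero Z)
        · exact h
      · intro h; exact Or.inr h
    have hR : ∀ W, Game.RightOpt (Game.add Game.zero X) W ↔
        ∃ X', Game.RightOpt X X' ∧ Game.add Game.zero X' = W := by
      intro W
      rw [rightOpt_add]
      constructor
      · rintro (⟨Z, hZ, _⟩ | h)
        · exact absurd hZ (rightOpt_zero Z)
        · exact h
      · intro h; exact Or.inr h
    constructor
    · rw [winsFirst_left, winsFirst_left]
      constructor
      · rintro (⟨h0, hc⟩ | ⟨W, hW, hw⟩)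
        · left
          exact ⟨fun X' hX' => h0 _ ((hL _).2 ⟨X', hX', rfl⟩), hc⟩
        · right
          obtain ⟨X', hX', rfl⟩ := (hL W).1 hW
          exact ⟨X', hX', fun h => hw ((ihL X' hX').2.2 h)⟩
      · rintro (⟨h0, hc⟩ | ⟨X', hX', hw⟩)
        · left
          refine ⟨?_, hc⟩
          intro W hW
          obtain ⟨X', hX', _⟩ := (hL W).1 hW
          exact h0 X' hX'
        · right
          exact ⟨_, (hL _).2 ⟨X', hX', rfl⟩, fun h => hw ((ihL X' hX').2.1 h)⟩
    · rw [winsFirst_right, winsFirst_right]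
      constructor
      · rintro (⟨h0, hc⟩ | ⟨W, hW, hw⟩)
        · left
          exact ⟨fun X' hX' => h0 _ ((hR _).2 ⟨X', hX', rfl⟩), hc⟩
        · right
          obtain ⟨X', hX', rfl⟩ := (hR W).1 hW
          exact ⟨X', hX', fun h => hw ((ihR X' hX').1.2 h)⟩
      · rintro (⟨h0, hc⟩ | ⟨X', hX', hw⟩)
        · left
          refine ⟨?_, hc⟩
          intro W hW
          obtain ⟨X', hX', _⟩ := (hR W).1 hW
          exact h0 X' hX'
        · right
          exact ⟨_, (hR _).2 ⟨X', hX', rfl⟩, fun h => hw ((ihR X' hX').1.1 h)⟩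

/-- Adding a game without options on the right changes nothing. -/
theorem add_end_wins (c : Convention) (E : Game) (hEL : ∀ X, ¬ Game.LeftOpt E X)
    (hER : ∀ X, ¬ Game.RightOpt E X) : ∀ X : Game,
    (WinsFirst c (Game.add X E) Player.left ↔ WinsFirst c X Player.left) ∧
    (WinsFirst c (Game.add X E) Player.right ↔ WinsFirst c X Player.right) := by
  intro X
  induction X using game_induction with
  | h X ihL ihR =>
    have hL : ∀ W, Game.LeftOpt (Game.add X E) W ↔
        ∃ X', Game.LeftOpt X X' ∧ Game.add X' E = W := by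
      intro W
      rw [leftOpt_add]
      constructor
      · rintro (h | ⟨Z, hZ, _⟩)
        · exact h
        · exact absurd hZ (hEL Z)
      · intro h; exact Or.inl h
    have hR : ∀ W, Game.RightOpt (Game.add X E) W ↔
        ∃ X', Game.RightOpt X X' ∧ Game.add X' E = W := by
      intro W
      rw [rightOpt_add]
      constructor
      · rintro (h | ⟨Z, hZ, _⟩)
        · exact h
        · exact absurd hZ (hER Z)
      · intro h; exact Or.inl h
    constructor
    · rw [winsFirst_left, winsFirst_left]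
      constructor
      · rintro (⟨h0, hc⟩ | ⟨W, hW, hw⟩)
        · left
          exact ⟨fun X' hX' => h0 _ ((hL _).2 ⟨X', hX', rfl⟩), hc⟩
        · right
          obtain ⟨X', hX', rfl⟩ := (hL W).1 hW
          exact ⟨X', hX', fun h => hw ((ihL X' hX').2.2 h)⟩
      · rintro (⟨h0, hc⟩ | ⟨X', hX', hw⟩)
        · left
          refine ⟨?_, hc⟩
          intro W hW
          obtain ⟨X', hX', _⟩ := (hL W).1 hW
          exact h0 X' hX'
        · right
          exact ⟨_, (hL _).2 ⟨X', hX', rfl⟩, fun h => hw ((ihL X' hX').2.1 h)⟩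
    · rw [winsFirst_right, winsFirst_right]
      constructor
      · rintro (⟨h0, hc⟩ | ⟨W, hW, hw⟩)
        · left
          exact ⟨fun X' hX' => h0 _ ((hR _).2 ⟨X', hX', rfl⟩), hc⟩
        · right
          obtain ⟨X', hX', rfl⟩ := (hR W).1 hW
          exact ⟨X', hX', fun h => hw ((ihR X' hX').1.2 h)⟩
      · rintro (⟨h0, hc⟩ | ⟨X', hX', hw⟩)
        · left
          refine ⟨?_, hc⟩
          intro W hW
          obtain ⟨X', hX', _⟩ := (hR W).1 hW
          exact h0 X' hX'
        · right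
          exact ⟨_, (hR _).2 ⟨X', hX', rfl⟩, fun h => hw ((ihR X' hX').1.1 h)⟩

/-- A set of games that are at least `0` modulo the dicotic games. -/
theorem ge_zero_of_set (S : Set Game)
    (h1 : ∀ Z ∈ S, ∀ Z', Game.RightOpt Z Z' → ∃ Z'', Game.LeftOpt Z' Z'' ∧ Z'' ∈ S)
    (h2 : ∀ Z ∈ S, WinsFirst Convention.misere Z Player.left) :
    ∀ X : Game, Game.Dicotic X → ∀ Z ∈ S,
      (WinsFirst Convention.misere X Player.left →
        WinsFirst Convention.misere (Game.add Z X) Player.left) ∧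
      (¬ WinsFirst Convention.misere X Player.right →
        ¬ WinsFirst Convention.misere (Game.add Z X) Player.right) := by
  intro X
  induction X using game_induction with
  | h X ihL ihR =>
    intro hX
    have hX' := (dicotic_iff X).1 hX
    have c1 : ∀ Z ∈ S, (WinsFirst Convention.misere X Player.left →
        WinsFirst Convention.misere (Game.add Z X) Player.left) := by
      intro Z hZ hw
      rw [winsFirst_left] at hw
      rcases hw with ⟨h0, _⟩ | ⟨X', hXX', hw'⟩
      · have h0R : ∀ W, ¬ Game.RightOpt X W := by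
          rcases hX'.1 with h | h
          · exact h.2
          · exact absurd h.1.choose_spec (h0 _)
        exact (add_end_wins _ X h0 h0R Z).1.2 (h2 Z hZ)
      · rw [winsFirst_left]
        right
        exact ⟨Game.add Z X', (leftOpt_add _ _ _).2 (Or.inr ⟨X', hXX', rfl⟩),
          (ihL X' hXX' (hX'.2.1 X' hXX') Z hZ).2 hw'⟩
    have c2 : ∀ Z, (Z ∈ S → ¬ WinsFirst Convention.misere X Player.right →
        ¬ WinsFirst Convention.misere (Game.add Z X) Player.right) ∧
        (∀ Z'', Game.LeftOpt Z Z'' → Z'' ∈ S → ¬ WinsFirst Convention.misere X Player.right →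
        ¬ WinsFirst Convention.misere (Game.add Z'' X) Player.right) := by
      intro Z
      induction Z using game_induction with
      | h Z jhL jhR =>
        refine ⟨?_, fun Z'' hZ'' => (jhL Z'' hZ'').1⟩
        intro hZ hw hcon
        rw [winsFirst_right] at hcon
        rcases hcon with ⟨h0, _⟩ | ⟨W, hW, hwW⟩
        · apply hw
          rw [winsFirst_right]
          left
          exact ⟨fun X' hXX' => h0 _ ((rightOpt_add _ _ _).2 (Or.inr ⟨X', hXX', rfl⟩)), rfl⟩
        · apply hwW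
          rw [rightOpt_add] at hW
          rcases hW with ⟨Z', hZ', rfl⟩ | ⟨X', hXX', rfl⟩
          · obtain ⟨Z'', hZ'', hS⟩ := h1 Z hZ Z' hZ'
            rw [winsFirst_left]
            right
            exact ⟨Game.add Z'' X, (leftOpt_add _ _ _).2 (Or.inl ⟨Z'', hZ'', rfl⟩),
              (jhR Z' hZ').2 Z'' hZ'' hS hw⟩
          · have : WinsFirst Convention.misere X' Player.left := by
              by_contra hne
              apply hw
              rw [winsFirst_right]
              right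
              exact ⟨X', hXX', hne⟩
            exact (ihR X' hXX' (hX'.2.2 X' hXX') Z hZ).1 this
    intro Z hZ
    exact ⟨c1 Z hZ, (c2 Z).1 hZ⟩

/-- A set of games that are at most `0` modulo the dicotic games. -/
theorem le_zero_of_set (S : Set Game)
    (h1 : ∀ Z ∈ S, ∀ Z', Game.LeftOpt Z Z' → ∃ Z'', Game.RightOpt Z' Z'' ∧ Z'' ∈ S)
    (h2 : ∀ Z ∈ S, WinsFirst Convention.misere Z Player.right) :
    ∀ X : Game, Game.Dicotic X → ∀ Z ∈ S,
      (WinsFirst Convention.misere X Player.right →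
        WinsFirst Convention.misere (Game.add Z X) Player.right) ∧
      (¬ WinsFirst Convention.misere X Player.left →
        ¬ WinsFirst Convention.misere (Game.add Z X) Player.left) := by
  intro X
  induction X using game_induction with
  | h X ihL ihR =>
    intro hX
    have hX' := (dicotic_iff X).1 hX
    have c1 : ∀ Z ∈ S, (WinsFirst Convention.misere X Player.right →
        WinsFirst Convention.misere (Game.add Z X) Player.right) := by
      intro Z hZ hw
      rw [winsFirst_right] at hw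
      rcases hw with ⟨h0, _⟩ | ⟨X', hXX', hw'⟩
      · have h0L : ∀ W, ¬ Game.LeftOpt X W := by
          rcases hX'.1 with h | h
          · exact h.1
          · exact absurd h.2.choose_spec (h0 _)
        exact (add_end_wins _ X h0L h0 Z).2.2 (h2 Z hZ)
      · rw [winsFirst_right]
        right
        exact ⟨Game.add Z X', (rightOpt_add _ _ _).2 (Or.inr ⟨X', hXX', rfl⟩),
          (ihR X' hXX' (hX'.2.2 X' hXX') Z hZ).2 hw'⟩
    have c2 : ∀ Z, (Z ∈ S → ¬ WinsFirst Convention.misere X Player.left →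
        ¬ WinsFirst Convention.misere (Game.add Z X) Player.left) ∧
        (∀ Z'', Game.RightOpt Z Z'' → Z'' ∈ S → ¬ WinsFirst Convention.misere X Player.left →
        ¬ WinsFirst Convention.misere (Game.add Z'' X) Player.left) := by
      intro Z
      induction Z using game_induction with
      | h Z jhL jhR =>
        refine ⟨?_, fun Z'' hZ'' => (jhR Z'' hZ'').1⟩
        intro hZ hw hcon
        rw [winsFirst_left] at hcon
        rcases hcon with ⟨h0, _⟩ | ⟨W, hW, hwW⟩
        · apply hw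
          rw [winsFirst_left]
          left
          exact ⟨fun X' hXX' => h0 _ ((leftOpt_add _ _ _).2 (Or.inr ⟨X', hXX', rfl⟩)), rfl⟩
        · apply hwW
          rw [leftOpt_add] at hW
          rcases hW with ⟨Z', hZ', rfl⟩ | ⟨X', hXX', rfl⟩
          · obtain ⟨Z'', hZ'', hS⟩ := h1 Z hZ Z' hZ'
            rw [winsFirst_right]
            right
            exact ⟨Game.add Z'' X, (rightOpt_add _ _ _).2 (Or.inl ⟨Z'', hZ'', rfl⟩),
              (jhL Z' hZ').2 Z'' hZ'' hS hw⟩
          · have : WinsFirst Convention.misere X' Player.right := by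
              by_contra hne
              apply hw
              rw [winsFirst_left]
              right
              exact ⟨X', hXX', hne⟩
            exact (ihL X' hXX' (hX'.2.1 X' hXX') Z hZ).1 this
    intro Z hZ
    exact ⟨c1 Z hZ, (c2 Z).1 hZ⟩

/-- The four sums that are `0` modulo the dicotic games. -/
def setS : Set Game :=
  {Game.add Game.zero Game.zero, Game.add Game.star Game.star, Game.add gameQ negQ,
    Game.add gameG negG}

theorem setS_right : ∀ Z ∈ setS, ∀ Z', Game.RightOpt Z Z' →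
    ∃ Z'', Game.LeftOpt Z' Z'' ∧ Z'' ∈ setS := by
  intro Z hZ Z' hZ'
  simp only [setS, Set.mem_insert_iff, Set.mem_singleton_iff] at hZ
  rcases hZ with rfl | rfl | rfl | rfl
  · rw [rightOpt_add] at hZ'
    rcases hZ' with ⟨W, hW, _⟩ | ⟨W, hW, _⟩
    · exact absurd hW (rightOpt_zero W)
    · exact absurd hW (rightOpt_zero W)
  · rw [rightOpt_add] at hZ'
    rcases hZ' with ⟨W, hW, rfl⟩ | ⟨W, hW, rfl⟩
    · rw [rightOpt_star] at hW; subst hW
      exact ⟨Game.add Game.zero Game.zero,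
        (leftOpt_add _ _ _).2 (Or.inr ⟨_, (leftOpt_star _).2 rfl, rfl⟩), by simp [setS]⟩
    · rw [rightOpt_star] at hW; subst hW
      exact ⟨Game.add Game.zero Game.zero,
        (leftOpt_add _ _ _).2 (Or.inl ⟨_, (leftOpt_star _).2 rfl, rfl⟩), by simp [setS]⟩
  · rw [rightOpt_add] at hZ'
    rcases hZ' with ⟨W, hW, rfl⟩ | ⟨W, hW, rfl⟩
    · rw [rightOpt_gameQ] at hW; subst hW
      exact ⟨Game.add Game.zero Game.zero,
        (leftOpt_add _ _ _).2 (Or.inr ⟨_, (leftOpt_negQ _).2 rfl, rfl⟩), by simp [setS]⟩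
    · rw [rightOpt_negQ] at hW
      rcases hW with rfl | rfl
      · exact ⟨Game.add Game.zero Game.zero,
          (leftOpt_add _ _ _).2 (Or.inl ⟨_, (leftOpt_gameQ _).2 (Or.inl rfl), rfl⟩),
          by simp [setS]⟩
      · exact ⟨Game.add Game.star Game.star,
          (leftOpt_add _ _ _).2 (Or.inl ⟨_, (leftOpt_gameQ _).2 (Or.inr rfl), rfl⟩),
          by simp [setS]⟩
  · rw [rightOpt_add] at hZ'
    rcases hZ' with ⟨W, hW, rfl⟩ | ⟨W, hW, rfl⟩
    · rw [rightOpt_gameG] at hW; subst hW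
      exact ⟨Game.add gameQ negQ,
        (leftOpt_add _ _ _).2 (Or.inr ⟨_, (leftOpt_negG _).2 rfl, rfl⟩), by simp [setS]⟩
    · rw [rightOpt_negG] at hW
      rcases hW with rfl | rfl
      · exact ⟨Game.add Game.zero Game.zero,
          (leftOpt_add _ _ _).2 (Or.inl ⟨_, (leftOpt_gameG _).2 (Or.inl rfl), rfl⟩),
          by simp [setS]⟩
      · exact ⟨Game.add Game.star Game.star,
          (leftOpt_add _ _ _).2 (Or.inl ⟨_, (leftOpt_gameG _).2 (Or.inr rfl), rfl⟩),
          by simp [setS]⟩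

theorem setS_left : ∀ Z ∈ setS, ∀ Z', Game.LeftOpt Z Z' →
    ∃ Z'', Game.RightOpt Z' Z'' ∧ Z'' ∈ setS := by
  intro Z hZ Z' hZ'
  simp only [setS, Set.mem_insert_iff, Set.mem_singleton_iff] at hZ
  rcases hZ with rfl | rfl | rfl | rfl
  · rw [leftOpt_add] at hZ'
    rcases hZ' with ⟨W, hW, _⟩ | ⟨W, hW, _⟩
    · exact absurd hW (leftOpt_zero W)
    · exact absurd hW (leftOpt_zero W)
  · rw [leftOpt_add] at hZ'
    rcases hZ' with ⟨W, hW, rfl⟩ | ⟨W, hW, rfl⟩
    · rw [leftOpt_star] at hW; subst hW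
      exact ⟨Game.add Game.zero Game.zero,
        (rightOpt_add _ _ _).2 (Or.inr ⟨_, (rightOpt_star _).2 rfl, rfl⟩), by simp [setS]⟩
    · rw [leftOpt_star] at hW; subst hW
      exact ⟨Game.add Game.zero Game.zero,
        (rightOpt_add _ _ _).2 (Or.inl ⟨_, (rightOpt_star _).2 rfl, rfl⟩), by simp [setS]⟩
  · rw [leftOpt_add] at hZ'
    rcases hZ' with ⟨W, hW, rfl⟩ | ⟨W, hW, rfl⟩
    · rw [leftOpt_gameQ] at hW
      rcases hW with rfl | rfl
      · exact ⟨Game.add Game.zero Game.zero,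
          (rightOpt_add _ _ _).2 (Or.inr ⟨_, (rightOpt_negQ _).2 (Or.inl rfl), rfl⟩),
          by simp [setS]⟩
      · exact ⟨Game.add Game.star Game.star,
          (rightOpt_add _ _ _).2 (Or.inr ⟨_, (rightOpt_negQ _).2 (Or.inr rfl), rfl⟩),
          by simp [setS]⟩
    · rw [leftOpt_negQ] at hW; subst hW
      exact ⟨Game.add Game.zero Game.zero,
        (rightOpt_add _ _ _).2 (Or.inl ⟨_, (rightOpt_gameQ _).2 rfl, rfl⟩), by simp [setS]⟩
  · rw [leftOpt_add] at hZ'
    rcases hZ' with ⟨W, hW, rfl⟩ | ⟨W, hW, rfl⟩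
    · rw [leftOpt_gameG] at hW
      rcases hW with rfl | rfl
      · exact ⟨Game.add Game.zero Game.zero,
          (rightOpt_add _ _ _).2 (Or.inr ⟨_, (rightOpt_negG _).2 (Or.inl rfl), rfl⟩),
          by simp [setS]⟩
      · exact ⟨Game.add Game.star Game.star,
          (rightOpt_add _ _ _).2 (Or.inr ⟨_, (rightOpt_negG _).2 (Or.inr rfl), rfl⟩),
          by simp [setS]⟩
    · rw [leftOpt_negG] at hW; subst hW
      exact ⟨Game.add gameQ negQ,
        (rightOpt_add _ _ _).2 (Or.inl ⟨_, (rightOpt_gameG _).2 rfl, rfl⟩), by simp [setS]⟩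

theorem zz_left : WinsFirst Convention.misere (Game.add Game.zero Game.zero) Player.left :=
  (misere_wins _ _ (rep_add _ _ _ _ rep_zero rep_zero)).1.2 (by simp [V.plus])

theorem zz_right : WinsFirst Convention.misere (Game.add Game.zero Game.zero) Player.right :=
  (misere_wins _ _ (rep_add _ _ _ _ rep_zero rep_zero)).2.2 (by simp [V.plus])

theorem ss_left : WinsFirst Convention.misere (Game.add Game.star Game.star) Player.left :=
  (misere_wins _ _ (rep_add _ _ _ _ rep_star rep_star)).1.2 (by simp [V.plus])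

theorem ss_right : WinsFirst Convention.misere (Game.add Game.star Game.star) Player.right :=
  (misere_wins _ _ (rep_add _ _ _ _ rep_star rep_star)).2.2 (by simp [V.plus])

theorem QnQ_left : WinsFirst Convention.misere (Game.add gameQ negQ) Player.left := by
  rw [winsFirst_left]
  right
  refine ⟨Game.add gameQ Game.zero,
    (leftOpt_add _ _ _).2 (Or.inr ⟨_, (leftOpt_negQ _).2 rfl, rfl⟩), ?_⟩
  rw [(misere_wins _ _ (rep_add _ _ _ _ rep_gameQ rep_zero)).2]
  simp [V.plus]

theorem QnQ_right : WinsFirst Convention.misere (Game.add gameQ negQ) Player.right := by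
  rw [winsFirst_right]
  right
  refine ⟨Game.add Game.zero negQ,
    (rightOpt_add _ _ _).2 (Or.inl ⟨_, (rightOpt_gameQ _).2 rfl, rfl⟩), ?_⟩
  rw [(zero_add_wins _ _).1, winsFirst_left]
  rintro (⟨h0, _⟩ | ⟨W, hW, hw⟩)
  · exact h0 _ ((leftOpt_negQ _).2 rfl)
  · rw [leftOpt_negQ] at hW; subst hW
    exact hw ((misere_wins _ _ rep_zero).2.2 (by simp))

theorem GnG_left : WinsFirst Convention.misere (Game.add gameG negG) Player.left := by
  rw [winsFirst_left]
  right
  refine ⟨Game.add gameG negQ,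
    (leftOpt_add _ _ _).2 (Or.inr ⟨_, (leftOpt_negG _).2 rfl, rfl⟩), ?_⟩
  rw [winsFirst_right]
  rintro (⟨h0, _⟩ | ⟨W, hW, hw⟩)
  · exact h0 _ ((rightOpt_add _ _ _).2 (Or.inl ⟨_, (rightOpt_gameG _).2 rfl, rfl⟩))
  · apply hw
    rw [rightOpt_add] at hW
    rcases hW with ⟨U, hU, rfl⟩ | ⟨U, hU, rfl⟩
    · rw [rightOpt_gameG] at hU; subst hU
      exact QnQ_left
    · rw [rightOpt_negQ] at hU
      rcases hU with rfl | rfl
      · exact (misere_wins _ _ (rep_add _ _ _ _ rep_gameG rep_zero)).1.2 (by simp [V.plus])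
      · exact (misere_wins _ _ (rep_add _ _ _ _ rep_gameG rep_star)).1.2 (by simp [V.plus])

theorem GnG_right : WinsFirst Convention.misere (Game.add gameG negG) Player.right := by
  rw [winsFirst_right]
  right
  refine ⟨Game.add gameQ negG,
    (rightOpt_add _ _ _).2 (Or.inl ⟨_, (rightOpt_gameG _).2 rfl, rfl⟩), ?_⟩
  rw [winsFirst_left]
  rintro (⟨h0, _⟩ | ⟨W, hW, hw⟩)
  · exact h0 _ ((leftOpt_add _ _ _).2 (Or.inr ⟨_, (leftOpt_negG _).2 rfl, rfl⟩))
  · apply hw
    rw [leftOpt_add] at hW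
    rcases hW with ⟨U, hU, rfl⟩ | ⟨U, hU, rfl⟩
    · rw [leftOpt_gameQ] at hU
      rcases hU with rfl | rfl
      · rw [(zero_add_wins _ _).2, winsFirst_right]
        right
        refine ⟨Game.star, (rightOpt_negG _).2 (Or.inr rfl), ?_⟩
        rw [(misere_wins _ _ rep_star).1]
        simp
      · rw [winsFirst_right]
        right
        refine ⟨Game.add Game.star Game.zero,
          (rightOpt_add _ _ _).2 (Or.inr ⟨_, (rightOpt_negG _).2 (Or.inl rfl), rfl⟩), ?_⟩
        rw [(misere_wins _ _ (rep_add _ _ _ _ rep_star rep_zero)).1]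
        simp [V.plus]
    · rw [leftOpt_negG] at hU; subst hU
      exact QnQ_right

theorem invertible_G : InvertibleModDicots gameG := by
  refine ⟨dicotic_of_rep _ _ rep_gameG, negG, dicotic_negG, ?_⟩
  intro X hX
  have hS : Game.add gameG negG ∈ setS := by simp [setS]
  have hge := ge_zero_of_set setS setS_right (by
    intro Z hZ
    simp only [setS, Set.mem_insert_iff, Set.mem_singleton_iff] at hZ
    rcases hZ with rfl | rfl | rfl | rfl
    · exact zz_left
    · exact ss_left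
    · exact QnQ_left
    · exact GnG_left) X hX _ hS
  have hle := le_zero_of_set setS setS_left (by
    intro Z hZ
    simp only [setS, Set.mem_insert_iff, Set.mem_singleton_iff] at hZ
    rcases hZ with rfl | rfl | rfl | rfl
    · exact zz_right
    · exact ss_right
    · exact QnQ_right
    · exact GnG_right) X hX _ hS
  apply outcome_eq
  · rw [(zero_add_wins _ _).1]
    constructor
    · intro h
      by_contra hne
      exact hle.2 hne h
    · exact hge.1
  · rw [(zero_add_wins _ _).2]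
    constructor
    · intro h
      by_contra hne
      exact hge.2 hne h
    · exact hle.1

end Pool.Agent.Work.MP_541980_co
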